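import Mathlib

namespace Pool.Agent.Results.MP_633f17_co.CrossFalse

open Finset

/-- `F` and `G` are cross-`(t,s)` families of subsets of an `n`-set:
`|A ∩ B| ≥ t` and `|A ∪ B| ≤ n - s` for all `A ∈ F`, `B ∈ G`. -/
def Cross (n t s : ℕ) (F G : Finset (Finset (Fin n))) : Prop :=
  ∀ A ∈ F, ∀ B ∈ G, t ≤ (A ∩ B).card ∧ (A ∪ B).card + s ≤ n

open Classical in
/-- `m(n,t,s)`: the largest size of a `(t,s)`-family (a family that is cross-`(t,s)` with itself,
i.e. `t`-intersecting and `s`-union). -/
noncomputable def maxTS (n t s : ℕ) : ℕ :=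
  ((univ : Finset (Finset (Finset (Fin n)))).filter (fun H => Cross n t s H H)).sup Finset.card

theorem small_sets (n e : ℕ) (hn : 1 ≤ n) :
    ((univ : Finset (Finset (Fin n))).filter (fun X => X.card ≤ e)).card ≤ (e + 1) * n ^ e := by
  have h : (univ : Finset (Finset (Fin n))).filter (fun X => X.card ≤ e) ⊆
      (range (e + 1)).biUnion (fun i => powersetCard i univ) := by
    intro X hX
    simp only [mem_filter, mem_univ, true_and] at hX
    simp only [mem_biUnion, mem_range, mem_powersetCard]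
    exact ⟨X.card, by omega, subset_univ _, rfl⟩
  refine (card_le_card h).trans ?_
  refine (card_biUnion_le_card_mul _ _ (n ^ e) ?_).trans (by simp)
  intro i hi
  rw [card_powersetCard, card_univ, Fintype.card_fin]
  exact (Nat.choose_le_pow n i).trans (Nat.pow_le_pow_right hn (by simp at hi; omega))

theorem class_bound (n e j : ℕ) (hn : 1 ≤ n) (D : Finset (Finset (Fin n)))
    (hj : j ≤ 2 * e + 1) (hc : ∀ X ∈ D, X.card = j)
    (hd : ∀ X ∈ D, ∀ Y ∈ D, (symmDiff X Y).card ≤ 2 * e + 1) :
    D.card ≤ 2 ^ (2 * e + 1) * ((e + 1) * n ^ e) := by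
  rcases D.eq_empty_or_nonempty with rfl | ⟨X0, hX0⟩
  · simp
  have key : D.card ≤ (X0.powerset ×ˢ
      ((univ : Finset (Finset (Fin n))).filter (fun X => X.card ≤ e))).card := by
    apply card_le_card_of_injOn (fun X => (X ∩ X0, X \ X0))
    · intro X hX
      have hX' : X ∈ D := hX
      simp only [coe_product, Set.mem_prod, mem_coe, mem_powerset, mem_filter, mem_univ, true_and]
      refine ⟨inter_subset_right, ?_⟩
      have h1 := hd X hX' X0 hX0
      have h2 : (symmDiff X X0).card = (X \ X0).card + (X0 \ X).card := by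
        rw [symmDiff_def, sup_eq_union, card_union_of_disjoint]
        exact disjoint_sdiff_sdiff
      have h3 := card_sdiff_add_card_inter X X0
      have h4 := card_sdiff_add_card_inter X0 X
      rw [inter_comm] at h4
      have h5 := hc X hX'
      have h6 := hc X0 hX0
      omega
    · intro X _ Y _ hXY
      simp only [Prod.mk.injEq] at hXY
      rw [← sdiff_union_inter X X0, ← sdiff_union_inter Y X0, hXY.1, hXY.2]
  refine key.trans ?_
  rw [card_product, card_powerset, hc X0 hX0]
  exact Nat.mul_le_mul (Nat.pow_le_pow_right (by norm_num) hj) (small_sets n e hn)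

theorem family_bound (n e : ℕ) (hn : 1 ≤ n) (H : Finset (Finset (Fin n)))
    (hd : ∀ X ∈ H, ∀ Y ∈ H, (symmDiff X Y).card ≤ 2 * e + 1) :
    H.card ≤ (2 * e + 2) * (2 ^ (2 * e + 1) * ((e + 1) * n ^ e)) := by
  rcases H.eq_empty_or_nonempty with rfl | ⟨A0, hA0⟩
  · simp
  set D := H.image (fun X => symmDiff X A0) with hD
  have h1 : H.card = D.card := by
    rw [hD, card_image_of_injective _ (symmDiff_left_injective A0)]
  have hD1 : ∀ X ∈ D, X.card ≤ 2 * e + 1 := by
    intro X hX
    obtain ⟨B, hB, rfl⟩ := mem_image.1 hX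
    exact hd B hB A0 hA0
  have hD2 : ∀ X ∈ D, ∀ Y ∈ D, (symmDiff X Y).card ≤ 2 * e + 1 := by
    intro X hX Y hY
    obtain ⟨B, hB, rfl⟩ := mem_image.1 hX
    obtain ⟨C, hC, rfl⟩ := mem_image.1 hY
    have : symmDiff (symmDiff B A0) (symmDiff C A0) = symmDiff B C := by
      rw [symmDiff_symmDiff_symmDiff_comm]; simp
    rw [this]; exact hd B hB C hC
  have h2 : D ⊆ (range (2 * e + 2)).biUnion (fun j => D.filter (fun X => X.card = j)) := by
    intro X hX
    simp only [mem_biUnion, mem_range, mem_filter]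
    exact ⟨X.card, by have := hD1 X hX; omega, hX, rfl⟩
  rw [h1]
  refine (card_le_card h2).trans ?_
  refine (card_biUnion_le_card_mul _ _ _ ?_).trans (by rw [card_range])
  intro j hj
  apply class_bound n e j hn
  · simp at hj; omega
  · intro X hX; exact (mem_filter.1 hX).2
  · intro X hX Y hY; exact hD2 X (mem_filter.1 hX).1 Y (mem_filter.1 hY).1

theorem maxTS_le (t s e : ℕ) :
    maxTS (t + s + 2 * e + 1) t s ≤
      (2 * e + 2) * (2 ^ (2 * e + 1) * ((e + 1) * (t + s + 2 * e + 1) ^ e)) := by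
  classical
  unfold maxTS
  apply Finset.sup_le
  intro H hH
  have hH' := (mem_filter.1 hH).2
  apply family_bound _ _ (by omega)
  intro X hX Y hY
  obtain ⟨h1, h2⟩ := hH' X hX Y hY
  have h3 : (symmDiff X Y).card + (X ∩ Y).card = (X ∪ Y).card := by
    rw [symmDiff_eq_sup_sdiff_inf, sup_eq_union, inf_eq_inter,
      card_sdiff_add_card_eq_card inter_subset_union]
  omega

theorem result (s e : ℕ) : ∃ t₀ : ℕ, ∀ t : ℕ, t₀ ≤ t →
    ∃ F G : Finset (Finset (Fin (t + s + 2 * e + 1))),
      Cross (t + s + 2 * e + 1) t s F G ∧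
      maxTS (t + s + 2 * e + 1) t s ^ 2 < F.card * G.card := by
  set K := (2 * e + 2) * (2 ^ (2 * e + 1) * (e + 1)) with hK
  refine ⟨s + K ^ 2 * 4 ^ e * (e.factorial * (e + 1).factorial), fun t ht => ?_⟩
  obtain ⟨S, -, hS⟩ := exists_subset_card_eq (s := (univ : Finset (Fin (t + s + 2 * e + 1))))
    (n := t + 2 * e + 1) (by simp)
  refine ⟨powersetCard (t + e) S, powersetCard (t + e + 1) S, ?_, ?_⟩
  · intro A hA B hB
    rw [mem_powersetCard] at hA hB
    have h1 : (A ∪ B).card ≤ S.card := card_le_card (union_subset hA.1 hB.1)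
    have h2 := card_union_add_card_inter A B
    omega
  · rw [card_powersetCard, card_powersetCard, hS]
    have e1 : (t + 2 * e + 1).choose (t + e) = (t + 2 * e + 1).choose (e + 1) :=
      Nat.choose_symm_of_eq_add (by omega)
    have e2 : (t + 2 * e + 1).choose (t + e + 1) = (t + 2 * e + 1).choose e :=
      Nat.choose_symm_of_eq_add (by omega)
    rw [e1, e2]
    have l1 : (t + e + 1) ^ (e + 1) ≤ (e + 1).factorial * (t + 2 * e + 1).choose (e + 1) := by
      rw [← Nat.descFactorial_eq_factorial_mul_choose]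
      have := Nat.pow_sub_le_descFactorial (t + 2 * e + 1) (e + 1)
      have h : t + 2 * e + 1 + 1 - (e + 1) = t + e + 1 := by omega
      rwa [h] at this
    have l2 : (t + e + 1) ^ e ≤ e.factorial * (t + 2 * e + 1).choose e := by
      rw [← Nat.descFactorial_eq_factorial_mul_choose]
      have := Nat.pow_sub_le_descFactorial (t + 2 * e + 1) e
      refine le_trans (Nat.pow_le_pow_left (by omega) _) this
    have u1 : maxTS (t + s + 2 * e + 1) t s ≤ K * (2 * (t + e + 1)) ^ e := by
      refine (maxTS_le t s e).trans ?_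
      have : (t + s + 2 * e + 1) ^ e ≤ (2 * (t + e + 1)) ^ e :=
        Nat.pow_le_pow_left (by omega) _
      calc _ = K * (t + s + 2 * e + 1) ^ e := by rw [hK]; ring
        _ ≤ _ := Nat.mul_le_mul_left _ this
    have u2 : maxTS (t + s + 2 * e + 1) t s ^ 2 ≤ K ^ 2 * 4 ^ e * (t + e + 1) ^ (2 * e) := by
      calc _ ≤ (K * (2 * (t + e + 1)) ^ e) ^ 2 := Nat.pow_le_pow_left u1 2
        _ = K ^ 2 * 4 ^ e * (t + e + 1) ^ (2 * e) := by
          have h4 : (4 : ℕ) ^ e = (2 ^ e) ^ 2 := by
            rw [← pow_mul, mul_comm e 2, pow_mul]; norm_num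
          rw [h4, mul_pow 2 (t + e + 1) e]
          ring
    have hpos : 0 < e.factorial * (e + 1).factorial := by positivity
    apply lt_of_mul_lt_mul_left _ hpos.le
    have hp : 0 < (t + e + 1) ^ (2 * e) := by positivity
    calc e.factorial * (e + 1).factorial * maxTS (t + s + 2 * e + 1) t s ^ 2
        ≤ e.factorial * (e + 1).factorial * (K ^ 2 * 4 ^ e * (t + e + 1) ^ (2 * e)) :=
          Nat.mul_le_mul_left _ u2
      _ = (K ^ 2 * 4 ^ e * (e.factorial * (e + 1).factorial)) * (t + e + 1) ^ (2 * e) := by ring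
      _ < (t + e + 1) * (t + e + 1) ^ (2 * e) := Nat.mul_lt_mul_of_pos_right (by omega) hp
      _ = (t + e + 1) ^ (e + 1) * (t + e + 1) ^ e := by ring
      _ ≤ ((e + 1).factorial * (t + 2 * e + 1).choose (e + 1)) *
            (e.factorial * (t + 2 * e + 1).choose e) := Nat.mul_le_mul l1 l2
      _ = _ := by ring

end Pool.Agent.Results.MP_633f17_co.CrossFalse
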